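import Pool.Agent.H71.LOC.Near2

set_option autoImplicit false

/-!
# Graphs of maximum degree `Δ` whose vertices are distinguished by `C log Δ` vertices

`T(G)` is the set of nonempty cliques of `G` ordered by inclusion. Two vertices are *distinguished*
by the other vertices which are adjacent to exactly one of them. Let `G` be a graph with `n ≥ 3`
vertices and all degrees at most `Δ`, `Δ ≥ 2`. `T(G)` and `T` of the complement of `G` are
reconstructible from their decks of maximal filter deleted subsets in each of the following cases.

(1) For some set `B` of at most `n / (128 log_2 Δ)` vertices, any two vertices outside `B` which are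
joined by a walk of length at most four are distinguished by at least `2048 log_2 Δ` vertices (or
by at least `80 (ln Δ) ^ 2`, if this is smaller).

(2) A set of at most `n / (128 log_2 Δ)` vertices is left out. Near twins are two vertices which are
joined by a walk of length at most four and are distinguished by fewer than `2048 log_2 Δ` vertices.
Every vertex has at most `k` near twins, at most `n / (128 (1 + log_2 (k + 1)))` vertices have a near
twin, and these have degree at least `1024 log_2 Δ`.

(3) `D` is a locating set (vertices outside `D` have different sets of neighbours in `D`) with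
`4 (binom(n, |D|) |Aut G[D]|) ^ 2 < |Aut G| ^ 2 2 ^ (n - |D|)`; for example `|D| ≤ n / 12` and
`|Aut G[D]| ≤ 2 ^ (n / 24 - 1)`.

The conditions (1) and (2) do not depend on `n`. With `Δ = n` they give: every graph in which any two
vertices are distinguished by at least `2048 log_2 n` vertices is reconstructible, whatever its
degrees, its symmetry and its density; the order `log n` is the one of sparse random graphs. They
are the analogues for vertex reconstruction of the theorems on edge reconstruction of Müller
(1977; average degree at least `2 log_2 n`) and of Caunter and Nash-Williams (average degree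
at least `2 log_2 (2 Δ)`). By (2) a graph with maximum degree `Δ` and minimum degree at least
`1024 log_2 Δ` which is not reconstructible has many vertices with near twins: a positive proportion
of all vertices, if no vertex has many near twins.

Proof. Let `H` be hypomorphic to `G` and not isomorphic to `G`. The theorem on locating sets (our
hand-in `LocatingSets`) says that `4 e ^ 2 ≥ a ^ 2 2 ^ (n - |D|)` for every locating set `D`, where `e` is
the number of the embeddings of `G[D]` into `G` and `a = |Aut G|`. New is first that `e` is estimated by
`binom(n, |D|) |Aut G[D]|` (image and automorphism), so that `D` can contain a positive proportion of all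
vertices if `G[D]` has less than `2 ^ (n / 30)` automorphisms, and second the following bound for the
automorphism groups (`Pool.Agent.H71.LOC.group_bound`): let `Γ` be a group of permutations of `m` points
which preserves a graph, with orbits of at most `M` points, such that any two points of an orbit are
distinguished by at least `q` points; then `log_2 |Γ|` is at most
`(4 m / q) (log_2 M + 2 (log_2 (q log_2 M / 4)) ^ 2)`. For the proof consider the potential
`∑_v log_2 |Γ v|`. The stabiliser of a point `x` divides every orbit `O` into two parts (adjacent and
nonadjacent to `x`), and the smaller parts have together at least `q / 2` elements. If `x` is in a large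
orbit `X` and each of the smaller parts has at most `|O| / |X| ^ (1/2)` elements, the potential decreases by
at least `(q / 4) log_2 |X|`, and the index of the stabiliser is `|X|`; if a part is larger, the stabiliser
of an element `z` of `O` divides `X` into two parts with at least `|X| ^ (1/2)` elements, and the potential
decreases by `|X| ^ (1/2)`. The set `D` consists of a random sixty-fourth of the vertices, of the vertices
with near twins, and of a connected set of `O(n / log Δ)` vertices which is within distance two from
all vertices of `D`; it has at most `n Δ ^ O(n / log Δ)` images.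
-/

namespace Pool.Agent.Results.MP_552896_co.FewNearTwins

/-- The truncated clique lattices of `G` and `H` have the same deck of maximal filter deleted
subsets: some bijection `f` of the vertex sets is such that, for every vertex `v`, the nonempty
cliques of `G` avoiding `v` and the nonempty cliques of `H` avoiding `f v`, both ordered by
inclusion, are isomorphic ordered sets. -/
def SameDeck {V W : Type} (G : SimpleGraph V) (H : SimpleGraph W) : Prop :=
  ∃ f : V ≃ W, ∀ v : V,
    Nonempty ({s : Finset V // s.Nonempty ∧ G.IsClique (s : Set V) ∧ v ∉ s} ≃o
      {t : Finset W // t.Nonempty ∧ H.IsClique (t : Set W) ∧ f v ∉ t})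

/-- `T(G)` is reconstructible from its deck: every truncated clique lattice `T(H)` of a finite
graph `H` with the same deck is isomorphic to `T(G)`. -/
def Reconstructible {V : Type} (G : SimpleGraph V) : Prop :=
  ∀ (W : Type) [Fintype W] (H : SimpleGraph W), SameDeck G H →
    Nonempty ({s : Finset V // s.Nonempty ∧ G.IsClique (s : Set V)} ≃o
      {t : Finset W // t.Nonempty ∧ H.IsClique (t : Set W)})

/-- The number of the vertices `z ≠ x, y` which are adjacent to exactly one of `x` and `y`. -/
noncomputable def distinguishing {V : Type} (G : SimpleGraph V) (x y : V) : ℕ :=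
  {z : V | z ≠ x ∧ z ≠ y ∧ ¬ (G.Adj x z ↔ G.Adj y z)}.ncard

/-- The near twins of `x` outside `B`: the other vertices which are joined to `x` by a walk of
length at most four and are distinguished from `x` by fewer than `2048 log_2 Δ` vertices. -/
def nearTwins {V : Type} (G : SimpleGraph V) (Δ : ℕ) (B : Finset V) (x : V) : Set V :=
  {y : V | y ∉ B ∧ y ≠ x ∧ (∃ p : G.Walk x y, p.length ≤ 4) ∧
    (distinguishing G x y : ℝ) < 2048 * Real.logb 2 (Δ : ℝ)}

/-- Distinct vertices outside `D` have different sets of neighbours in `D`. -/
def Locating {V : Type} (G : SimpleGraph V) (D : Finset V) : Prop :=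
  ∀ x y : V, x ∉ D → y ∉ D → (∀ d ∈ D, G.Adj x d ↔ G.Adj y d) → x = y

/-- Graphs with few near twins, and graphs with a locating set with few automorphisms. -/
theorem result {V : Type} [Fintype V] (G : SimpleGraph V) (hV : 3 ≤ Fintype.card V) :
    -- (1) no near twins, apart from few vertices
    (∀ Δ : ℕ, 2 ≤ Δ → (∀ v : V, {w : V | G.Adj v w}.ncard ≤ Δ) →
      ∀ B : Finset V, 128 * (B.card : ℝ) * Real.logb 2 (Δ : ℝ) ≤ (Fintype.card V : ℝ) →
      (∀ x y : V, x ∉ B → y ∉ B → x ≠ y → (∃ p : G.Walk x y, p.length ≤ 4) →
        min (2048 * Real.logb 2 (Δ : ℝ)) (80 * Real.log (Δ : ℝ) ^ 2) ≤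
          (distinguishing G x y : ℝ)) →
      Reconstructible G ∧ Reconstructible Gᶜ) ∧
    -- (2) few vertices with near twins
    (∀ Δ k : ℕ, 2 ≤ Δ → (∀ v : V, {w : V | G.Adj v w}.ncard ≤ Δ) →
      ∀ B : Finset V, 128 * (B.card : ℝ) * Real.logb 2 (Δ : ℝ) ≤ (Fintype.card V : ℝ) →
      (∀ x : V, x ∉ B → (nearTwins G Δ B x).ncard ≤ k) →
      128 * ({x : V | x ∉ B ∧ (nearTwins G Δ B x).Nonempty}.ncard : ℝ) *
        (1 + Real.logb 2 ((k : ℝ) + 1)) ≤ (Fintype.card V : ℝ) →
      (∀ x : V, x ∉ B → (nearTwins G Δ B x).Nonempty →
        1024 * Real.logb 2 (Δ : ℝ) ≤ ({w : V | G.Adj x w}.ncard : ℝ)) →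
      Reconstructible G ∧ Reconstructible Gᶜ) ∧
    -- (3) a locating set with few automorphisms
    (∀ D : Finset V, Locating G D →
      4 * ((Fintype.card V).choose D.card *
        Nat.card (G.induce (D : Set V) ≃g G.induce (D : Set V))) ^ 2 <
          Nat.card (G ≃g G) ^ 2 * 2 ^ (Fintype.card V - D.card) →
      Reconstructible G ∧ Reconstructible Gᶜ) := by
  refine ⟨?_, ?_, ?_⟩
  · intro Δ hΔ hdeg B hB h
    exact Pool.Agent.H71.LOC.thmM G hV Δ hΔ (Pool.Agent.H71.LOC.degLE_of_ncard hdeg) B hB h
  · intro Δ k hΔ hdeg B hB hk hR hRdeg
    classical
    have key := Pool.Agent.H71.LOC.thmN G hV Δ hΔ (Pool.Agent.H71.LOC.degLE_of_ncard hdeg) B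
      (Finset.univ.filter (fun x => x ∉ B ∧ (nearTwins G Δ B x).Nonempty))
      (fun x => if x ∈ B then ∅ else (nearTwins G Δ B x).toFinset) k hB ?_ ?_ ?_ ?_ ?_
    · exact key
    · have e : {x : V | x ∉ B ∧ (nearTwins G Δ B x).Nonempty}.ncard =
          (Finset.univ.filter (fun x => x ∉ B ∧ (nearTwins G Δ B x).Nonempty)).card :=
        Pool.Agent.H71.LOC.ncard_filter _
      rw [e] at hR
      convert hR using 6
    · intro x hx
      by_cases hxB : x ∈ B
      · exact if_pos hxB
      · rw [if_neg hxB, Set.toFinset_eq_empty, ← Set.not_nonempty_iff_eq_empty]
        intro h1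
        apply hx
        rw [Finset.mem_filter]
        exact ⟨Finset.mem_univ _, hxB, h1⟩
    · intro x
      by_cases hxB : x ∈ B
      · rw [if_pos hxB]
        exact Nat.zero_le _
      · rw [if_neg hxB, ← Set.ncard_eq_toFinset_card']
        exact hk x hxB
    · intro x hx
      rw [Finset.mem_filter] at hx
      have h1 := hRdeg x hx.2.1 hx.2.2
      rw [Pool.Agent.H71.LOC.nb_ncard']
      exact h1
    · intro x y hx hy hxy hn hτ
      by_contra hlt
      push Not at hlt
      apply hτ
      rw [if_neg hx, Set.mem_toFinset]
      exact ⟨hy, hxy.symm, hn, hlt⟩
  · intro D hD h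
    exact Pool.Agent.H71.LOC.thmAut G hD h

end Pool.Agent.Results.MP_552896_co.FewNearTwins
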