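import Pool.Agent.H15.LE.Fin

/-!
# Common neighbours determined by degrees; graphs with at most three Laplacian eigenvalues

`T(G)` is the set of nonempty cliques of `G` ordered by inclusion. Let `d(x)` be the degree of a vertex and `l(x, y)` the
number of common neighbours of two vertices.

(1) For all graphs `G` with sufficiently many vertices: let `P` be the set of the quadruples `(a, d, e, l)` such that there
are two different vertices `x, y` with `d(x) = d`, `d(y) = e`, `l(x, y) = l`, adjacent if `a` is true and not adjacent if `a`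
is false. Suppose that `(a, d, e, l)` and `(a, d + 1, e + 1, l + 1)` are never both in `P`, and that for every `e` and
`j = 0, 1` the quadruples `(a, d, e, l)` and `(a, d + 1, e, l + j)` are both in `P` (for some `d`, `l`) for at most one of
the two values of `a`. Then `T(G)` and `T(Gᶜ)` are reconstructible.

(2) Let `G` have at least `7` vertices, and let `l(x, y)` be a bilinear function of `d(x)` and `d(y)` for adjacent vertices
and a bilinear function of `d(x)` and `d(y)`, in general a different one, for nonadjacent vertices `x ≠ y`. If the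
slopes satisfy two conditions, `T(G)` and `T(Gᶜ)` are reconstructible.

(3) If `G` has at least `7` vertices and its Laplacian matrix has at most three different eigenvalues, then `T(G)` and
`T(Gᶜ)` are reconstructible.

The proof. The sum of the squares of the defects of a bilinear identity is a sum over `6`-tuples of vertices of a function
of the induced pattern, so that Kelly's lemma gives the same identity for every hypomorphic graph `H`; for many vertices
the profiles of pairs are reconstructible by the theorem `VertexProfiles`. If `K` is the copy of `H` which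
agrees with `G` off `v`, comparing the profiles of `x, y` in `G` and `K` shows that at most one neighbour of `v` in `G` is not
a neighbour in `K`, and that the two vertices which differ are twins in the card.
-/

set_option autoImplicit false

namespace Pool.Agent.Results.MP_552896_co.LaplacianThree

open Finset

/-- The truncated clique lattices of `G` and `H` have the same deck of maximal filter deleted subsets: some bijection `f`
of the vertex sets is such that, for every vertex `v`, the nonempty cliques of `G` avoiding `v` and the nonempty cliques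
of `H` avoiding `f v`, both ordered by inclusion, are isomorphic ordered sets. -/
def SameDeck {V W : Type} (G : SimpleGraph V) (H : SimpleGraph W) : Prop :=
  ∃ f : V ≃ W, ∀ v : V,
    Nonempty ({s : Finset V // s.Nonempty ∧ G.IsClique (s : Set V) ∧ v ∉ s} ≃o
      {t : Finset W // t.Nonempty ∧ H.IsClique (t : Set W) ∧ f v ∉ t})

/-- `T(G)` is reconstructible from its deck: every truncated clique lattice `T(H)` of a finite graph `H` with the same
deck is isomorphic to `T(G)`. -/
def Reconstructible {V : Type} (G : SimpleGraph V) : Prop :=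
  ∀ (W : Type) [Fintype W] (H : SimpleGraph W), SameDeck G H →
    Nonempty ({s : Finset V // s.Nonempty ∧ G.IsClique (s : Set V)} ≃o
      {t : Finset W // t.Nonempty ∧ H.IsClique (t : Set W)})

/-- the degree of a vertex -/
noncomputable def deg {V : Type} (G : SimpleGraph V) (x : V) : ℕ := (G.neighborSet x).ncard

/-- the number of common neighbours of two vertices -/
noncomputable def codeg {V : Type} (G : SimpleGraph V) (x y : V) : ℕ := (G.commonNeighbors x y).ncard

/-- some two different vertices, adjacent if and only if `a` holds, have the degrees `d` and `e` and exactly `l` common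
neighbours -/
def Occurs {V : Type} (G : SimpleGraph V) (a : Prop) (d e l : ℕ) : Prop :=
  ∃ x y, x ≠ y ∧ (G.Adj x y ↔ a) ∧ deg G x = d ∧ deg G y = e ∧ codeg G x y = l

open Classical in
lemma deg_eq {V : Type} [Fintype V] (G : SimpleGraph V) (x : V) : deg G x = Pool.Agent.H15.LE.dg G x := by
  rw [deg, Pool.Agent.H15.LE.dg, ← Set.ncard_coe_finset]
  congr 1
  ext z
  simp

open Classical in
lemma codeg_eq {V : Type} [Fintype V] (G : SimpleGraph V) (x y : V) : codeg G x y = Pool.Agent.H15.LE.cg G x y := by
  rw [codeg, Pool.Agent.H15.LE.cg, ← Set.ncard_coe_finset]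
  congr 1
  ext z
  simp [SimpleGraph.mem_commonNeighbors]

open Classical in
lemma occurs_iff {V : Type} [Fintype V] (G : SimpleGraph V) (a : Bool) (d e l : ℕ) :
    Pool.Agent.H15.LE.HasProf G a d e l ↔ Occurs G (a = true) d e l := by
  unfold Pool.Agent.H15.LE.HasProf Occurs Pool.Agent.H15.LE.ad
  simp_rw [deg_eq, codeg_eq]
  refine exists_congr fun x => exists_congr fun y => and_congr_right fun _ => and_congr_left fun _ => ?_
  constructor
  · intro h
    rw [← h, decide_eq_true_iff]
  · intro h
    by_cases h1 : G.Adj x y
    · rw [decide_eq_true h1, h.1 h1]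
    · rw [decide_eq_false h1]
      cases a
      · rfl
      · exact absurd (h.2 rfl) h1

open Classical in
theorem result :
    (∃ n₀ : ℕ, ∀ (V : Type) [Fintype V] (G : SimpleGraph V), n₀ ≤ Fintype.card V →
      (∀ a d e l, Occurs G a (d + 1) (e + 1) (l + 1) → ¬ Occurs G a d e l) →
      (∀ e, ¬ ∀ a, ∃ d l, Occurs G a (d + 1) e (l + 1) ∧ Occurs G a d e l) →
      (∀ e, ¬ ∀ a, ∃ d l, Occurs G a (d + 1) e l ∧ Occurs G a d e l) →
      Reconstructible G ∧ Reconstructible Gᶜ) ∧
    (∀ (V : Type) [Fintype V] (G : SimpleGraph V), 7 ≤ Fintype.card V → ∀ c₁ s₁ z₁ c₀ s₀ z₀ : ℝ,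
      (∀ x y, G.Adj x y → (codeg G x y : ℝ) = c₁ + s₁ * (deg G x + deg G y) + z₁ * (deg G x * deg G y)) →
      (∀ x y, x ≠ y → ¬ G.Adj x y →
        (codeg G x y : ℝ) = c₀ + s₀ * (deg G x + deg G y) + z₀ * (deg G x * deg G y)) →
      (∀ x y, G.Adj x y → 2 * s₁ + z₁ * (deg G x + deg G y - 1) ≠ 1) →
      (∀ x y, x ≠ y → ¬ G.Adj x y → 2 * s₀ + z₀ * (deg G x + deg G y - 1) ≠ 1) →
      (∀ x, s₀ + z₀ * deg G x = s₁ + z₁ * deg G x → s₁ + z₁ * deg G x ≠ 0 ∧ s₁ + z₁ * deg G x ≠ 1) →
      Reconstructible G ∧ Reconstructible Gᶜ) ∧
    (∀ (V : Type) [Fintype V] (G : SimpleGraph V), 7 ≤ Fintype.card V →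
      (spectrum ℝ (G.lapMatrix ℝ)).ncard ≤ 3 → Reconstructible G ∧ Reconstructible Gᶜ) := by
  refine ⟨?_, ?_, ?_⟩
  · obtain ⟨n₀, h⟩ := Pool.Agent.H15.LE.prof_thm
    refine ⟨n₀, fun V _ G hV hN hQ hR => h V G hV ?_ ?_ ?_⟩
    · intro a d e l h1 h2
      rw [occurs_iff] at h1 h2
      exact hN _ d e l h1 h2
    · intro e h1
      apply hQ e
      intro a
      obtain ⟨d, l, h2, h3⟩ := h1 (decide a)
      rw [occurs_iff] at h2 h3
      rw [decide_eq_true_eq] at h2 h3
      exact ⟨d, l, h2, h3⟩
    · intro e h1
      apply hR e
      intro a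
      obtain ⟨d, l, h2, h3⟩ := h1 (decide a)
      rw [occurs_iff] at h2 h3
      rw [decide_eq_true_eq] at h2 h3
      exact ⟨d, l, h2, h3⟩
  · intro V _ G h7 c₁ s₁ z₁ c₀ s₀ z₀ h1 h0 hN1 hN0 hQ
    simp_rw [deg_eq] at h1 h0 hN1 hN0 hQ
    simp_rw [codeg_eq] at h1 h0
    refine Pool.Agent.H15.LE.bil_thm G h7 (fun a => if a then c₁ else c₀) (fun a => if a then s₁ else s₀)
      (fun a => if a then z₁ else z₀) ?_ ?_ ?_ ?_
    · intro x y hxy
      unfold Pool.Agent.H15.LE.bil Pool.Agent.H15.LE.ad
      by_cases h : G.Adj x y
      · rw [decide_eq_true h]; simpa using h1 x y h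
      · rw [decide_eq_false h]; simpa using h0 x y hxy h
    · intro x y hxy
      unfold Pool.Agent.H15.LE.ad
      by_cases h : G.Adj x y
      · rw [decide_eq_true h]; simpa using hN1 x y h
      · rw [decide_eq_false h]; simpa using hN0 x y hxy h
    · intro u hu
      have e1 := hu true
      have e0 := hu false
      simp only [if_true, Bool.false_eq_true, if_false] at e1 e0
      exact (hQ u (by rw [e0, e1])).2 e1
    · intro u hu
      have e1 := hu true
      have e0 := hu false
      simp only [if_true, Bool.false_eq_true, if_false] at e1 e0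
      exact (hQ u (by rw [e0, e1])).1 e1
  · intro V _ G h7 h3
    exact Pool.Agent.H15.LE.lap_thm G h7 h3

end Pool.Agent.Results.MP_552896_co.LaplacianThree
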