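import Pool.Agent.H71.LOC.Two

set_option autoImplicit false

/-!
# Graphs with a small locating set, and graphs without many near twins, are reconstructible

`T(G)` is the set of nonempty cliques of `G` ordered by inclusion. Let `G` have `n` vertices. A set
`D` of vertices is *locating* if no two vertices outside `D` have the same neighbours in `D`. Two
vertices are *distinguished* by the other vertices which are adjacent to exactly one of them.
`T(G)` and `T` of the complement of `G` are reconstructible from their decks of maximal filter
deleted subsets in each of the following cases.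

(1) `D` is a locating set with `4 e ^ 2 < a ^ 2 * 2 ^ (n - |D|)`, where `e` is the number of the
induced embeddings of `G[D]` into `G` and `a` is the number of the automorphisms of `G`. (As
`e ≤ n ^ |D|` it suffices that `|D| (2 log_2 n + 1) + 2 < n`.)

(2) `B` is a set of at most `n / (16 log n)` vertices, every vertex outside `B` has at most `k` near
twins outside `B`, and at most `n / (32 (1 + log_2 (k + 1)))` vertices outside `B` have a near twin
outside `B`. Here near twins are two vertices which are distinguished by fewer than
`16 (log n) ^ 2` vertices.

(3) Any two vertices are distinguished by at least `8 (log n) ^ 2` vertices.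

Nothing else is assumed about the graph: in (3) it may be regular, have any automorphism group and
any density down to `(log n) ^ 2 / n`. For example, all graphs without a cycle of length four with
`n ≥ 3` vertices and minimum degree at least `4 (log n) ^ 2 + 2` satisfy (3). By (2) a graph which
is not reconstructible contains linearly many vertices with near twins, or very many near twins of
one vertex. (The known hypomorphic tournaments of Stockmeyer have near twins distinguished by a
bounded number of vertices.)

Proof of (1). Let `H` be hypomorphic to `G` and not isomorphic to `G`. For a set `S` of vertices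
outside `D` let `e_X(S)` be the number of the embeddings of `G[D ∪ S]` into `X`, for `X = G, H`. By
Kelly's lemma `e_G(S) = e_H(S)` unless `D ∪ S` is everything, and in this case the two numbers are
`a` and `0`. Fix an embedding `f` of `G[D]` into `X`. As `D` is locating, an extension of `f` to
`D ∪ S` is determined by its image, and the images which occur are the independent sets of a graph
`K_f` with at most `n - |D|` vertices (two vertices are joined if they cannot both be used).
So the sum of `(-y) ^ |S| e_X(S)` over all `S` is the sum over all `f` of the independence
polynomials of the graphs `K_f` at `-y`. For `y = 2 + √2` the independence polynomial of every graph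
with `m` vertices has absolute value at most `(1 + √2) ^ m` at `-y`. As `y = √2 (1 + √2)`, the
difference of the two sums gives `a 2 ^ ((n - |D|) / 2) ≤ 2 e`. In (2) and (3) a locating set is
found greedily, and its embeddings are counted.
-/

namespace Pool.Agent.Results.MP_552896_co.LocatingSets

/-- The truncated clique lattices of `G` and `H` have the same deck of maximal filter deleted
subsets: some bijection `f` of the vertex sets is such that, for every vertex `v`, the nonempty
cliques of `G` avoiding `v` and the nonempty cliques of `H` avoiding `f v`, both ordered by
inclusion, are isomorphic ordered sets. -/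
def SameDeck {V W : Type} (G : SimpleGraph V) (H : SimpleGraph W) : Prop :=
  ∃ f : V ≃ W, ∀ v : V,
    Nonempty ({s : Finset V // s.Nonempty ∧ G.IsClique (s : Set V) ∧ v ∉ s} ≃o
      {t : Finset W // t.Nonempty ∧ H.IsClique (t : Set W) ∧ f v ∉ t})

/-- `T(G)` is reconstructible from its deck: every truncated clique lattice `T(H)` of a finite
graph `H` with the same deck is isomorphic to `T(G)`. -/
def Reconstructible {V : Type} (G : SimpleGraph V) : Prop :=
  ∀ (W : Type) [Fintype W] (H : SimpleGraph W), SameDeck G H →
    Nonempty ({s : Finset V // s.Nonempty ∧ G.IsClique (s : Set V)} ≃o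
      {t : Finset W // t.Nonempty ∧ H.IsClique (t : Set W)})

/-- `D` is a locating set: vertices outside `D` with the same neighbours in `D` are equal. -/
def Locating {V : Type} (G : SimpleGraph V) (D : Finset V) : Prop :=
  ∀ x y : V, x ∉ D → y ∉ D → (∀ d ∈ D, G.Adj x d ↔ G.Adj y d) → x = y

/-- The number of the vertices `z ≠ x, y` which are adjacent to exactly one of `x` and `y`. -/
noncomputable def distinguishing {V : Type} (G : SimpleGraph V) (x y : V) : ℕ :=
  {z : V | z ≠ x ∧ z ≠ y ∧ ¬ (G.Adj x z ↔ G.Adj y z)}.ncard

/-- The near twins of `x` outside `B`: the vertices `y ≠ x` outside `B` such that fewer than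
`16 (log n) ^ 2` vertices distinguish `x` and `y`. -/
def nearTwins {V : Type} [Fintype V] (G : SimpleGraph V) (B : Finset V) (x : V) : Set V :=
  {y | y ∉ B ∧ y ≠ x ∧ (distinguishing G x y : ℝ) < 16 * Real.log (Fintype.card V) ^ 2}

/-- `T(G)` and `T(Gᶜ)` are reconstructible if (1) `G` has a locating set `D` such that
`4 e ^ 2 < a ^ 2 * 2 ^ (n - |D|)` for the number `e` of the embeddings of `G[D]` into `G` and the
number `a` of the automorphisms of `G`, or (2) outside some set of at most `n / (16 log n)`
vertices, every vertex has at most `k` near twins and at most `n / (32 (1 + log_2 (k + 1)))`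
vertices have a near twin, or (3) any two vertices are distinguished by at least `8 (log n) ^ 2`
vertices. -/
theorem result {V : Type} [Fintype V] (G : SimpleGraph V) :
    (∀ D : Finset V, Locating G D →
      4 * Nat.card (G.induce (D : Set V) ↪g G) ^ 2 <
        Nat.card (G ≃g G) ^ 2 * 2 ^ (Fintype.card V - D.card) →
      Reconstructible G ∧ Reconstructible Gᶜ) ∧
    (3 ≤ Fintype.card V → ∀ (B : Finset V) (k : ℕ), 1 ≤ k →
      16 * (B.card : ℝ) * Real.log (Fintype.card V) ≤ (Fintype.card V : ℝ) →
      (∀ x : V, x ∉ B → (nearTwins G B x).ncard ≤ k) →
      32 * ({x : V | x ∉ B ∧ (nearTwins G B x).Nonempty}.ncard : ℝ) *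
        (1 + Real.logb 2 ((k : ℝ) + 1)) ≤ (Fintype.card V : ℝ) →
      Reconstructible G ∧ Reconstructible Gᶜ) ∧
    (3 ≤ Fintype.card V →
      (∀ x y : V, x ≠ y → 8 * Real.log (Fintype.card V) ^ 2 ≤ (distinguishing G x y : ℝ)) →
      Reconstructible G ∧ Reconstructible Gᶜ) :=
  ⟨fun _ hD h => Pool.Agent.H71.LOC.thmA G hD h,
    fun h3 B k hk hB hdeg ht => Pool.Agent.H71.LOC.thmE G h3 B k hk hB hdeg ht,
    fun h3 h => Pool.Agent.H71.LOC.thmD G h3 h⟩

end Pool.Agent.Results.MP_552896_co.LocatingSets
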