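import Pool.Agent.H71.TQ.Fin

set_option autoImplicit false

/-!
# Graphs with a recognisable modular partition and a well separated quotient are reconstructible

`T(G)` is the set of nonempty cliques of `G` ordered by inclusion. Let the vertex set of `G` be
partitioned into `K` nonempty modules `M_i`, and let `Q` be the quotient graph on the `K` parts. So
`G` is obtained from `Q` by the substitution of the graphs `M_i` for the vertices. Two vertices are
*distinguished* by the other vertices which are adjacent to exactly one of them.

(A) Suppose that the partition is recognisable in one of the following ways: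

* for some `s`, any two vertices of the same part are distinguished by fewer than `s`, any two
  vertices of different parts by more than `s` vertices of `G` (and `n ≥ 16`);
* for some `s`, all parts have at most `s` vertices, and every module of `G - U`, for every set `U`
  of at most two vertices, which is not contained in a part has more than `s` vertices (for
  example, all parts have one vertex, and `s = 1`);
* `K ≥ 5` and `Q - D` is prime for every set `D` of parts which have together at most two
  vertices. Then the graphs `M_i` are arbitrary.

Suppose that `G` has at least four vertices and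

1. some set `D` of vertices of `Q` is *locating* for isomorphic parts (distinct `i, j` outside `D`
   with `M_i ≅ M_j` have different neighbours in `D`) and has few copies: `4 e ^ 2 <
   a ^ 2 * 2 ^ (K - |D|)`, where `e` is the number of the induced embeddings `φ` of `Q[D]` into `Q`
   with `M_φ(i) ≅ M_i` for all `i`, and `a` is the number of the automorphisms `φ` of `Q` with
   this property; or
2. any two vertices `i, j` of `Q` with `M_i ≅ M_j` are distinguished by at least `8 (log K) ^ 2`
   vertices of `Q`, `K ≥ 3`; or
3. any two vertices of `Q` are distinguished by at least `2048 log_2 K` vertices of `Q`, `K ≥ 2`.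

Then `T(G)` and `T` of the complement of `G` are reconstructible from their decks.

(B) Let `K ≥ 2` and let any two vertices of `Q` be distinguished by at least
`m ≥ min (8 (log K) ^ 2, 2048 log_2 K)` vertices of `Q`. If the vertices of each part are twins (the
parts are complete or edgeless graphs, of arbitrary orders), or if no part has more than `m` times
as many vertices as another one (for example, if `G` is a lexicographic product `Q[M]` with an
arbitrary graph `M`, or if all parts have at most `m` vertices), then `T(G)` and `T` of the
complement of `G` are reconstructible.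

Proof of (A) in the case 1. Let `H` be hypomorphic to `G`. The recognisability gives a partition of
`H` into modules which is mapped to that of `G` in every card. Colour every vertex by the
isomorphism type of its part with the vertex as a root. By a version of Kelly's lemma, by
induction on the sum of the orders of the parts, the numbers of the choices of one vertex in each
of the parts `i ∈ S` with prescribed adjacencies and colours agree in `G` and `H`, for every proper
subset `S` of the vertices of `Q`: if a vertex of a chosen part is deleted, the colour changes to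
one of a smaller order. So the numbers of the coloured embeddings of `Q[S]` into the
quotients of `G` and `H` agree for `S ≠ Q`. If `H` is not isomorphic to `G` then these numbers are
`a` and `0` for `S = Q`. As in the hand-in `LocatingSets`, the generating functions of these
numbers over all `S ⊇ D` are sums of `e` independence polynomials of graphs with at most `K - |D|`
vertices, which are bounded by `(1 + √2) ^ (K - |D|)` at `-(2 + √2)`; so
`a 2 ^ ((K - |D|) / 2) ≤ 2 e`.
-/

namespace Pool.Agent.Results.MP_552896_co.ModularPartitions

/-- The truncated clique lattices of `G` and `H` have the same deck of maximal filter deleted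
subsets: some bijection `f` of the vertex sets is such that, for every vertex `v`, the nonempty
cliques of `G` avoiding `v` and the nonempty cliques of `H` avoiding `f v`, both ordered by
inclusion, are isomorphic ordered sets. -/
def SameDeck {V W : Type} (G : SimpleGraph V) (H : SimpleGraph W) : Prop :=
  ∃ f : V ≃ W, ∀ v : V,
    Nonempty ({s : Finset V // s.Nonempty ∧ G.IsClique (s : Set V) ∧ v ∉ s} ≃o
      {t : Finset W // t.Nonempty ∧ H.IsClique (t : Set W) ∧ f v ∉ t})

/-- `T(G)` is reconstructible from its deck: every truncated clique lattice `T(H)` of a finite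
graph `H` with the same deck is isomorphic to `T(G)`. -/
def Reconstructible {V : Type} (G : SimpleGraph V) : Prop :=
  ∀ (W : Type) [Fintype W] (H : SimpleGraph W), SameDeck G H →
    Nonempty ({s : Finset V // s.Nonempty ∧ G.IsClique (s : Set V)} ≃o
      {t : Finset W // t.Nonempty ∧ H.IsClique (t : Set W)})

/-- The number of the vertices `z ≠ x, y` which are adjacent to exactly one of `x` and `y`. -/
noncomputable def distinguishing {V : Type} (G : SimpleGraph V) (x y : V) : ℕ :=
  {z : V | z ≠ x ∧ z ≠ y ∧ ¬ (G.Adj x z ↔ G.Adj y z)}.ncard

/-- The parts `{x | f x = i}` are nonempty modules of `G`, and `Q` is the quotient graph. -/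
def IsQuotient {V K : Type} (G : SimpleGraph V) (Q : SimpleGraph K) (f : V → K) : Prop :=
  Function.Surjective f ∧ ∀ x y, f x ≠ f y → (G.Adj x y ↔ Q.Adj (f x) (f y))

/-- The graphs `M_i` and `M_j` induced by the parts `i` and `j` are isomorphic. -/
def SameType {V K : Type} (G : SimpleGraph V) (f : V → K) (i j : K) : Prop :=
  Nonempty (G.induce {x | f x = i} ≃g G.induce {x | f x = j})

/-- The number of the vertices of the part `i`. -/
noncomputable def size {V K : Type} (f : V → K) (i : K) : ℕ := {x | f x = i}.ncard

/-- `M` is a module of `G - U`. -/
def ModuleWithout {V : Type} (G : SimpleGraph V) (U M : Finset V) : Prop :=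
  Disjoint M U ∧ ∀ z, z ∉ M → z ∉ U → ∀ x ∈ M, ∀ y ∈ M, (G.Adj z x ↔ G.Adj z y)

/-- Every module of `Q - D` has at most one vertex or contains all vertices outside `D`. -/
def PrimeWithout {K : Type} (Q : SimpleGraph K) (D : Finset K) : Prop :=
  ∀ S : Finset K, ModuleWithout Q D S → S.card ≤ 1 ∨ ∀ z, z ∈ S ∨ z ∈ D

/-- The partition into the sets `{x | f x = i}` is recognisable: (a) by the numbers of the vertices
which distinguish two vertices of `G`, (b) by the orders of the modules of the graphs `G - U`,
`|U| ≤ 2`, or (c) since the quotient remains prime without any set of parts which have together at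
most two vertices. -/
def Recognisable {V K : Type} [Fintype V] [Fintype K] (G : SimpleGraph V) (Q : SimpleGraph K)
    (f : V → K) : Prop :=
  (16 ≤ Fintype.card V ∧ ∃ s : ℕ,
    (∀ x y, x ≠ y → f x = f y → distinguishing G x y < s) ∧
    (∀ x y, f x ≠ f y → s < distinguishing G x y)) ∨
  (∃ s : ℕ, (∀ i, size f i ≤ s) ∧ ∀ U M : Finset V, U.card ≤ 2 → ModuleWithout G U M →
    (∃ x ∈ M, ∃ y ∈ M, f x ≠ f y) → s < M.card) ∨
  (5 ≤ Fintype.card K ∧ ∀ D : Finset K, {x | f x ∈ D}.ncard ≤ 2 → PrimeWithout Q D)

/-- The number of the induced embeddings `φ` of `Q[D]` into `Q` with `M_φ(i) ≅ M_i` for all `i`. -/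
noncomputable def copies {V K : Type} (G : SimpleGraph V) (Q : SimpleGraph K) (f : V → K)
    (D : Finset K) : ℕ :=
  Nat.card {φ : Q.induce (D : Set K) ↪g Q // ∀ i : (D : Set K), SameType G f i (φ i)}

/-- The number of the automorphisms `φ` of `Q` with `M_φ(i) ≅ M_i` for all `i`. -/
noncomputable def automorphisms {V K : Type} (G : SimpleGraph V) (Q : SimpleGraph K)
    (f : V → K) : ℕ :=
  Nat.card {φ : Q ≃g Q // ∀ i, SameType G f i (φ i)}

/-- Let `G` be a graph with a partition into `K` nonempty modules with the quotient `Q`.
(A) `T(G)` and `T(Gᶜ)` are reconstructible if `n ≥ 4`, the partition is recognisable and (1) some set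
`D` which is locating for isomorphic parts has few copies, or (2) isomorphic parts are
distinguished by at least `8 (log K) ^ 2` parts, or (3) any two parts are distinguished by at least
`2048 log_2 K` parts. (B) The same if any two parts are distinguished by at least
`m ≥ min (8 (log K) ^ 2, 2048 log_2 K)` parts, and the vertices of each part are twins or
the orders of any two parts differ at most by a factor `m`. -/
theorem result {V K : Type} [Fintype V] [Fintype K] (G : SimpleGraph V) (Q : SimpleGraph K)
    (f : V → K) (hf : IsQuotient G Q f) :
    (4 ≤ Fintype.card V → Recognisable G Q f →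
      (∃ D : Finset K,
        (∀ i j, i ∉ D → j ∉ D → SameType G f i j → (∀ d ∈ D, Q.Adj i d ↔ Q.Adj j d) → i = j) ∧
        4 * copies G Q f D ^ 2 < automorphisms G Q f ^ 2 * 2 ^ (Fintype.card K - D.card)) ∨
      (3 ≤ Fintype.card K ∧ ∀ i j, i ≠ j → SameType G f i j →
        8 * Real.log (Fintype.card K) ^ 2 ≤ (distinguishing Q i j : ℝ)) ∨
      (2 ≤ Fintype.card K ∧ ∀ i j, i ≠ j →
        2048 * Real.logb 2 (Fintype.card K) ≤ (distinguishing Q i j : ℝ)) →
      Reconstructible G ∧ Reconstructible Gᶜ) ∧
    (2 ≤ Fintype.card K → ∀ m : ℕ,
      min (8 * Real.log (Fintype.card K) ^ 2) (2048 * Real.logb 2 (Fintype.card K)) ≤ m →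
      (∀ i j, i ≠ j → m ≤ distinguishing Q i j) →
      (∀ x y, x ≠ y → f x = f y → distinguishing G x y = 0) ∨ (∀ i j, size f i ≤ m * size f j) →
      Reconstructible G ∧ Reconstructible Gᶜ) := by
  classical
  obtain ⟨hs, ha⟩ := hf
  have hsize : ∀ i, size f i = (Finset.univ.filter (fun v => f v = i)).card := by
    intro i
    unfold size
    rw [← Set.ncard_coe_finset]
    congr 1
    ext v
    simp
  have hsize2 : ∀ D : Finset K, {x | f x ∈ D}.ncard =
      (Finset.univ.filter (fun v => f v ∈ D)).card := by
    intro D
    rw [← Set.ncard_coe_finset]
    congr 1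
    ext v
    simp
  refine ⟨fun hn hR h => ?_, fun hK m hm h hP => ?_⟩
  · have hR' : Pool.Agent.H71.TQ.Rcg G Q f := by
      rcases hR with ⟨h1, s, h2, h3⟩ | ⟨s, h1, h2⟩ | ⟨h1, h2⟩
      · refine Or.inr (Or.inl ⟨h1, s, fun x y hxy hf => ?_, fun x y hxy => ?_⟩)
        · convert h2 x y hxy hf using 1
          exact (Pool.Agent.H71.TQ.dst_ds G x y).symm
        · convert h3 x y hxy using 1
          exact (Pool.Agent.H71.TQ.dst_ds G x y).symm
      · refine Or.inr (Or.inr (Or.inl ⟨s, fun i => ?_, h2⟩))
        convert h1 i using 1
        rw [hsize i]
      · refine Or.inr (Or.inr (Or.inr ⟨h1, fun D hD S h3 h4 => h2 D ?_ S ⟨h3, h4⟩⟩))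
        rw [hsize2 D]
        convert hD using 1
    rcases h with ⟨D, h1, h2⟩ | ⟨h1, h2⟩ | ⟨h1, h2⟩
    · exact Pool.Agent.H71.TQ.main1 hs ha hn hR' h1 h2
    · exact Pool.Agent.H71.TQ.main3 hs ha hn hR' h1 h2
    · exact Pool.Agent.H71.TQ.main4 hs ha hn hR' h1 h2
  · apply Pool.Agent.H71.TQ.main5 hs ha hK hm h
    rcases hP with hP | hP
    · exact Or.inl hP
    · right
      intro i j
      have h1 := hP i j
      rw [hsize i, hsize j] at h1
      convert h1 using 1

end Pool.Agent.Results.MP_552896_co.ModularPartitions
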